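import Pool.Agent.H143R3.MT.Stmts

/-!
Task MT-Rev of the project H143-MT: reversal of the killed walk.
-/

namespace Pool.Agent.H337R3.MTRev

open Pool.Agent.H143R3.MT
open scoped ENNReal NNReal

variable {q : ℤ → ℝ≥0∞}

theorem conv_adj (hq : ∀ k, q (-k) = q k) (g h : ℤ → ℝ≥0∞) :
    ∑' y : ℤ, g y * conv q h y = ∑' y : ℤ, conv q g y * h y := by
  have h1 : ∀ y, g y * conv q h y = ∑' k : ℤ, q k * (g y * h (y + k)) := by
    intro y
    unfold conv
    rw [← ENNReal.tsum_mul_left]
    refine tsum_congr fun k => ?_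
    ring
  have h2 : ∀ y, conv q g y * h y = ∑' k : ℤ, q k * (g (y + k) * h y) := by
    intro y
    unfold conv
    rw [← ENNReal.tsum_mul_right]
    refine tsum_congr fun k => ?_
    ring
  simp only [h1, h2]
  rw [ENNReal.tsum_comm]
  have h3 : ∀ k : ℤ, ∑' y : ℤ, q k * (g y * h (y + k)) =
      ∑' y : ℤ, q (-k) * (g (y + -k) * h y) := by
    intro k
    rw [hq, ← (Equiv.addRight k).tsum_eq (fun y : ℤ => q k * (g (y + -k) * h y))]
    refine tsum_congr fun y => ?_
    simp [Equiv.coe_addRight]
  simp only [h3]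
  exact ((Equiv.neg ℤ).tsum_eq (fun k : ℤ => ∑' y : ℤ, q k * (g (y + k) * h y))).trans
    ENNReal.tsum_comm

/-- the forward evolution of a density with killing -/
noncomputable def pa (q : ℤ → ℝ≥0∞) : List ℤ → (ℤ → ℝ≥0∞) → ℤ → ℝ≥0∞
  | [], g => g
  | x :: l, g => pa q l (conv q fun z => if z = x then 0 else g z)

theorem pa_av (hq : ∀ k, q (-k) = q k) (l : List ℤ) (g f : ℤ → ℝ≥0∞) :
    ∑' y : ℤ, g y * av q l f y = ∑' z : ℤ, pa q l g z * f z := by
  induction l generalizing g with
  | nil => rfl
  | cons x l ih =>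
    have h1 : ∀ y, g y * av q (x :: l) f y =
        (if y = x then 0 else g y) * conv q (av q l f) y := by
      intro y
      show g y * (if y = x then 0 else conv q (av q l f) y) = _
      by_cases h : y = x
      · simp [h]
      · simp [h]
    simp only [h1]
    rw [conv_adj hq, ih]
    rfl

theorem pa_append (l : List ℤ) (x : ℤ) (g : ℤ → ℝ≥0∞) :
    pa q (l ++ [x]) g = conv q fun z => if z = x then 0 else pa q l g z := by
  induction l generalizing g with
  | nil => rfl
  | cons y l ih => exact ih _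

theorem pa_one (hs : ∑' k, q k = 1) (l : List ℤ) :
    pa q l (fun _ => 1) = conv q (av q l.reverse fun _ => 1) := by
  induction l using List.reverseRecOn with
  | nil =>
    funext z
    show (1 : ℝ≥0∞) = conv q (fun _ => 1) z
    unfold conv
    simp [hs]
  | append_singleton l x ih =>
    rw [pa_append, ih, List.reverse_append]
    rfl

/-- **Task Rev.** -/
theorem taskRev : TaskRev := by
  rintro ⟨-, hsym, hsum, -⟩ s l f -
  have h := pa_av (q := sk s) (hsym s) l (fun _ => 1) f
  simp only [one_mul] at h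
  rw [h, pa_one (hsum s)]

end Pool.Agent.H337R3.MTRev
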